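import Pool.Agent.V1137.SHDCube

open Filter Topology Set

namespace Pool.Agent.Results.MP_f0fa00_gt.NotDenseHereditary

open Pool.Agent.V1137.SHDCube

/-- `SHD` is not dense hereditary: some compact Hausdorff selectively highly divergent space has a
dense subspace which is not selectively highly divergent. -/
theorem result :
    ∃ (X : Type) (_ : TopologicalSpace X) (D : Set X),
      CompactSpace X ∧ T2Space X ∧ SHD X ∧ Dense D ∧ ¬ SHD D :=
  ⟨I → Bool, inferInstance, Sig I, inferInstance, inferInstance, shd_cube, dense_sig I,
    not_shd_sig I⟩

end Pool.Agent.Results.MP_f0fa00_gt.NotDenseHereditary
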